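import Pool.Agent.H55.GW.Targets3

set_option autoImplicit false

namespace Pool.Agent.H70.GW

open Pool.Agent.H55.GW

noncomputable section
open Classical

/-- the smallest member containing `K` -/
def cl (𝒟 : Set (Set ℕ)) (K : Set ℕ) : Set ℕ := ⋂₀ {D | D ∈ 𝒟 ∧ K ⊆ D}

lemma cl_mono (𝒟 : Set (Set ℕ)) {K K' : Set ℕ} (h : K ⊆ K') : cl 𝒟 K ⊆ cl 𝒟 K' := by
  intro x hx D hD
  exact hx D ⟨hD.1, h.trans hD.2⟩

lemma sub_cl (𝒟 : Set (Set ℕ)) (K : Set ℕ) : K ⊆ cl 𝒟 K := fun _ hx _ hD => hD.2 hx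

lemma cl_sub {𝒟 : Set (Set ℕ)} {K D : Set ℕ} (hD : D ∈ 𝒟) (h : K ⊆ D) : cl 𝒟 K ⊆ D :=
  fun _ hx => hx D ⟨hD, h⟩

lemma cl_mem {f : Set ℕ → ℕ} {k : ℕ} {E : Set ℕ} {𝒟 : Set (Set ℕ)} (hE : E.Finite)
    (hd : Dec f k E 𝒟) {K : Set ℕ} (hK : K.Nonempty) (hKE : K ⊆ E) : cl 𝒟 K ∈ 𝒟 := by
  have hne : {n : ℕ | ∃ D ∈ 𝒟, K ⊆ D ∧ D.ncard = n}.Nonempty := ⟨_, E, hd.top, hKE, rfl⟩
  obtain ⟨D, hD, hKD, hn⟩ := Nat.sInf_mem hne
  have : cl 𝒟 K = D := by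
    apply Set.Subset.antisymm (cl_sub hD hKD)
    intro x hx D' hD'
    rcases hd.lam D hD D' hD'.1 with h | h | h
    · exact h hx
    · have hfin : D.Finite := hE.subset (hd.sub D hD)
      have h1 : sInf {n : ℕ | ∃ D ∈ 𝒟, K ⊆ D ∧ D.ncard = n} ≤ D'.ncard :=
        Nat.sInf_le ⟨D', hD'.1, hD'.2, rfl⟩
      have := Set.eq_of_subset_of_ncard_le h (by omega) hfin
      rw [this]; exact hx
    · obtain ⟨y, hy⟩ := hK
      exact absurd (h.le_bot ⟨hKD hy, hD'.2 hy⟩) (by simp)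
  rw [this]; exact hD

/-- all hypotheses -/
structure Cx (f : Set ℕ → ℕ) (k : ℕ) (E : Set ℕ) (𝒟 : Set (Set ℕ)) (R S A : Set ℕ) : Prop where
  fin : E.Finite
  ss : SymSub E f
  dec : Dec f k E 𝒟
  opt : Opt f 𝒟 R S A
  dec' : Dec f k E (impD 𝒟 R S A)

/-- the set of part II belonging to `T` -/
def b2 (R S A T : Set ℕ) : Set ℕ := if T ⊆ S then (if R ⊆ T then T ∪ A else T \ A) else T

/-- the origin -/
def og (𝒟 : Set (Set ℕ)) (R A X : Set ℕ) : Set ℕ :=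
  if X ⊆ A then cl 𝒟 X else cl 𝒟 ((X \ A) ∪ (X ∩ R))

section
variable {f : Set ℕ → ℕ} {k : ℕ} {E : Set ℕ} {𝒟 : Set (Set ℕ)} {R S A : Set ℕ}

lemma Cx.R_mem (h : Cx f k E 𝒟 R S A) : R ∈ 𝒟 := h.opt.1
lemma Cx.S_mem (h : Cx f k E 𝒟 R S A) : S ∈ 𝒟 := h.opt.2.1
lemma Cx.RA (h : Cx f k E 𝒟 R S A) : R ⊆ A := h.opt.2.2.1
lemma Cx.AS (h : Cx f k E 𝒟 R S A) : A ⊆ S := h.opt.2.2.2.1
lemma Cx.min (h : Cx f k E 𝒟 R S A) {Z : Set ℕ} (h1 : R ⊆ Z) (h2 : Z ⊆ S) : f A ≤ f Z :=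
  h.opt.2.2.2.2.1 Z h1 h2
lemma Cx.Rne (h : Cx f k E 𝒟 R S A) : R.Nonempty := h.dec.ne R h.R_mem
lemma Cx.Ane (h : Cx f k E 𝒟 R S A) : A.Nonempty := h.Rne.mono h.RA
lemma Cx.SE (h : Cx f k E 𝒟 R S A) : S ⊆ E := h.dec.sub S h.S_mem
lemma Cx.AE (h : Cx f k E 𝒟 R S A) : A ⊆ E := h.AS.trans h.SE

lemma Cx.A_mem (h : Cx f k E 𝒟 R S A) : A ∈ impD 𝒟 R S A := by
  left; left; right
  exact ⟨h.Ane, S, h.S_mem, le_rfl, (Set.inter_eq_self_of_subset_right h.AS).symm⟩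

/-- part I -/
lemma Cx.part1 (h : Cx f k E 𝒟 R S A) {X : Set ℕ} (hX : X ∈ impD 𝒟 R S A) (hXA : X ⊆ A) :
    cl 𝒟 X ∈ 𝒟 ∧ cl 𝒟 X ⊆ S ∧ cl 𝒟 X ∩ A = X := by
  have hne := h.dec'.ne X hX
  have hT : ∃ T ∈ 𝒟, T ⊆ S ∧ X = T ∩ A := by
    rcases hX with ((⟨h1, h2⟩ | ⟨_, T, hT, hTS, rfl⟩) | ⟨h1, T, hT, hTS, _, rfl⟩) |
      ⟨T, hT, hRT, hTS, rfl⟩
    · exact absurd (hXA.trans h.AS) h2
    · exact ⟨T, hT, hTS, rfl⟩
    · obtain ⟨y, hy⟩ := h1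
      exact absurd (hXA hy) hy.2
    · refine ⟨S, h.S_mem, le_rfl, ?_⟩
      rw [Set.inter_eq_self_of_subset_right h.AS]
      exact Set.Subset.antisymm hXA Set.subset_union_right
  obtain ⟨T, hT, hTS, rfl⟩ := hT
  have hsub : cl 𝒟 (T ∩ A) ⊆ T := cl_sub hT Set.inter_subset_left
  refine ⟨cl_mem h.fin h.dec hne (Set.inter_subset_left.trans (h.dec.sub T hT)),
    hsub.trans hTS, ?_⟩
  apply Set.Subset.antisymm
  · exact fun x hx => ⟨hsub hx.1, hx.2⟩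
  · exact fun x hx => ⟨sub_cl _ _ hx, hx.2⟩

/-- part II -/
lemma Cx.part2 (h : Cx f k E 𝒟 R S A) {X : Set ℕ} (hX : X ∈ impD 𝒟 R S A) (hXA : ¬ X ⊆ A) :
    cl 𝒟 ((X \ A) ∪ (X ∩ R)) ∈ 𝒟 ∧ b2 R S A (cl 𝒟 ((X \ A) ∪ (X ∩ R))) = X := by
  have hXE := h.dec'.sub X hX
  have hne : ((X \ A) ∪ (X ∩ R)).Nonempty := by
    obtain ⟨y, hy, hyA⟩ := Set.not_subset.mp hXA
    exact ⟨y, Or.inl ⟨hy, hyA⟩⟩
  have hKE : ((X \ A) ∪ (X ∩ R)) ⊆ X := by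
    rintro x (hx | hx)
    · exact hx.1
    · exact hx.1
  have hmem := cl_mem h.fin h.dec hne (hKE.trans hXE)
  refine ⟨hmem, ?_⟩
  have hsc := sub_cl 𝒟 ((X \ A) ∪ (X ∩ R))
  rcases hX with ((⟨h1, h2⟩ | ⟨_, T, hT, hTS, rfl⟩) | ⟨h1, T, hT, hTS, hTR, rfl⟩) |
      ⟨T, hT, hRT, hTS, rfl⟩
  · -- type 1
    have hsub : cl 𝒟 ((X \ A) ∪ (X ∩ R)) ⊆ X := cl_sub h1 hKE
    have heq : cl 𝒟 ((X \ A) ∪ (X ∩ R)) = X := by
      apply Set.Subset.antisymm hsub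
      rcases h.dec.lam X h1 S h.S_mem with h3 | h3 | h3
      · exact absurd h3 h2
      · -- S ⊆ X
        obtain ⟨y, hy, hyS⟩ := Set.not_subset.mp h2
        have hRX : R ⊆ X := (h.RA.trans h.AS).trans h3
        have hSc : S ⊆ cl 𝒟 ((X \ A) ∪ (X ∩ R)) := by
          rcases h.dec.lam _ hmem S h.S_mem with h4 | h4 | h4
          · exact absurd (h4 (hsc (Or.inl ⟨hy, fun hA => hyS (h.AS hA)⟩))) hyS
          · exact h4
          · obtain ⟨r, hr⟩ := h.Rne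
            exact absurd (h4.le_bot ⟨hsc (Or.inr ⟨hRX hr, hr⟩), h.AS (h.RA hr)⟩) (by simp)
        intro x hx
        by_cases hxA : x ∈ A
        · exact hSc (h.AS hxA)
        · exact hsc (Or.inl ⟨hx, hxA⟩)
      · intro x hx
        exact hsc (Or.inl ⟨hx, fun hA => h3.le_bot ⟨hx, h.AS hA⟩⟩)
    rw [heq, b2, if_neg h2]
  · exact absurd Set.inter_subset_right hXA
  · -- type 3
    have hK : ((T \ A) \ A) ∪ ((T \ A) ∩ R) ⊆ T := hKE.trans Set.diff_subset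
    have hsub := cl_sub hT hK
    have hS : cl 𝒟 (((T \ A) \ A) ∪ ((T \ A) ∩ R)) ⊆ S := hsub.trans hTS
    have hR : ¬ R ⊆ cl 𝒟 (((T \ A) \ A) ∪ ((T \ A) ∩ R)) := by
      intro hR
      obtain ⟨r, hr⟩ := h.Rne
      exact hTR.le_bot ⟨hsub (hR hr), hr⟩
    rw [b2, if_pos hS, if_neg hR]
    apply Set.Subset.antisymm
    · exact fun x hx => ⟨hsub hx.1, hx.2⟩
    · exact fun x hx => ⟨hsc (Or.inl ⟨hx, hx.2⟩), hx.2⟩
  · -- type 4
    have hK : ((T ∪ A) \ A) ∪ ((T ∪ A) ∩ R) ⊆ T := by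
      rintro x (⟨hx | hx, hx'⟩ | ⟨_, hx⟩)
      · exact hx
      · exact absurd hx hx'
      · exact hRT hx
    have hsub := cl_sub hT hK
    have hS : cl 𝒟 (((T ∪ A) \ A) ∪ ((T ∪ A) ∩ R)) ⊆ S := hsub.trans hTS
    have hR : R ⊆ cl 𝒟 (((T ∪ A) \ A) ∪ ((T ∪ A) ∩ R)) :=
      fun x hx => hsc (Or.inr ⟨Or.inr (h.RA hx), hx⟩)
    rw [b2, if_pos hS, if_pos hR]
    apply Set.Subset.antisymm
    · rintro x (hx | hx)
      · exact Or.inl (hsub hx)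
      · exact Or.inr hx
    · rintro x (hx | hx)
      · by_cases hxA : x ∈ A
        · exact Or.inr hxA
        · exact Or.inl (hsc (Or.inl ⟨Or.inl hx, hxA⟩))
      · exact Or.inr hx

lemma Cx.b2_mono (h : Cx f k E 𝒟 R S A) {T U : Set ℕ} (hU : U ∈ 𝒟) (hTU : T ⊆ U) :
    b2 R S A T ⊆ b2 R S A U := by
  unfold b2
  by_cases hUS : U ⊆ S
  · have hTS := hTU.trans hUS
    rw [if_pos hUS, if_pos hTS]
    by_cases hRT : R ⊆ T
    · rw [if_pos hRT, if_pos (hRT.trans hTU)]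
      exact Set.union_subset_union_left _ hTU
    · rw [if_neg hRT]
      by_cases hRU : R ⊆ U
      · rw [if_pos hRU]
        exact fun x hx => Or.inl (hTU hx.1)
      · rw [if_neg hRU]
        exact fun x hx => ⟨hTU hx.1, hx.2⟩
  · rw [if_neg hUS]
    by_cases hTS : T ⊆ S
    · rw [if_pos hTS]
      by_cases hRT : R ⊆ T
      · rw [if_pos hRT]
        have hSU : S ⊆ U := by
          rcases h.dec.lam U hU S h.S_mem with h4 | h4 | h4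
          · exact absurd h4 hUS
          · exact h4
          · obtain ⟨r, hr⟩ := h.Rne
            exact absurd (h4.le_bot ⟨hTU (hRT hr), h.AS (h.RA hr)⟩) (by simp)
        exact Set.union_subset hTU (h.AS.trans hSU)
      · rw [if_neg hRT]
        exact fun x hx => hTU hx.1
    · rw [if_neg hTS]
      exact hTU

lemma Cx.disj (h : Cx f k E 𝒟 R S A) {T : Set ℕ} (hT : T ∈ 𝒟) (hR : ¬ R ⊆ T)
    (hne : (T \ A).Nonempty) : Disjoint T R := by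
  rcases h.dec.lam T hT R h.R_mem with h4 | h4 | h4
  · obtain ⟨y, hy⟩ := hne
    exact absurd (h.RA (h4 hy.1)) hy.2
  · exact absurd h4 hR
  · exact h4

lemma Cx.sub1 (h : Cx f k E 𝒟 R S A) {T : Set ℕ} (hT : T ⊆ S) :
    f (A ∪ T) + f (T ∩ A) ≤ f T + f A := by
  have := h.ss.2 A h.AE T (hT.trans h.SE)
  rw [Set.inter_comm T A]
  omega

lemma Cx.sub2 (h : Cx f k E 𝒟 R S A) {T : Set ℕ} (hT : T ⊆ S) :
    f (A \ T) + f (T \ A) ≤ f T + f A := by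
  have hTE := hT.trans h.SE
  have h1 := h.ss.2 A h.AE (E \ T) Set.diff_subset
  have h2 : A ∪ (E \ T) = E \ (T \ A) := by
    ext x
    constructor
    · rintro (hx | hx)
      · exact ⟨h.AE hx, fun h' => h'.2 hx⟩
      · exact ⟨hx.1, fun h' => hx.2 h'.1⟩
    · rintro ⟨hx, hx'⟩
      by_cases hxA : x ∈ A
      · exact Or.inl hxA
      · exact Or.inr ⟨hx, fun hxT => hx' ⟨hxT, hxA⟩⟩
  have h3 : A ∩ (E \ T) = A \ T := by
    ext x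
    constructor
    · rintro ⟨hx, hx'⟩
      exact ⟨hx, hx'.2⟩
    · rintro ⟨hx, hx'⟩
      exact ⟨hx, h.AE hx, hx'⟩
  rw [h2, h3, h.ss.1 _ (Set.diff_subset.trans hTE), h.ss.1 _ hTE] at h1
  omega

lemma Cx.f_b1 (h : Cx f k E 𝒟 R S A) {T : Set ℕ} (hT : T ⊆ S) : f (T ∩ A) ≤ f T := by
  have h1 := h.sub1 hT
  have h2 : f A ≤ f (A ∪ T) := h.min (h.RA.trans Set.subset_union_left)
    (Set.union_subset h.AS hT)
  omega

lemma Cx.b2_mem (h : Cx f k E 𝒟 R S A) {T : Set ℕ} (hT : T ∈ 𝒟) (hne : (b2 R S A T).Nonempty) :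
    b2 R S A T ∈ impD 𝒟 R S A ∧ f (b2 R S A T) ≤ f T := by
  unfold b2 at hne ⊢
  by_cases hTS : T ⊆ S
  · rw [if_pos hTS] at hne ⊢
    by_cases hR : R ⊆ T
    · rw [if_pos hR] at hne ⊢
      refine ⟨Or.inr ⟨T, hT, hR, hTS, rfl⟩, ?_⟩
      have h1 := h.sub1 hTS
      have h2 : f A ≤ f (T ∩ A) := h.min (Set.subset_inter hR h.RA)
        (Set.inter_subset_left.trans hTS)
      rw [Set.union_comm T A]
      omega
    · rw [if_neg hR] at hne ⊢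
      have hd := h.disj hT hR hne
      refine ⟨Or.inl (Or.inr ⟨hne, T, hT, hTS, hd, rfl⟩), ?_⟩
      have h1 := h.sub2 hTS
      have h2 : f A ≤ f (A \ T) := h.min
        (fun x hx => ⟨h.RA hx, fun hxT => hd.le_bot ⟨hxT, hx⟩⟩) (Set.diff_subset.trans h.AS)
      omega
  · rw [if_neg hTS] at hne ⊢
    exact ⟨Or.inl (Or.inl (Or.inl ⟨hT, hTS⟩)), le_rfl⟩

lemma Cx.og_mem (h : Cx f k E 𝒟 R S A) {X : Set ℕ} (hX : X ∈ impD 𝒟 R S A) :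
    og 𝒟 R A X ∈ 𝒟 := by
  unfold og
  by_cases hXA : X ⊆ A
  · rw [if_pos hXA]; exact (h.part1 hX hXA).1
  · rw [if_neg hXA]; exact (h.part2 hX hXA).1

lemma Cx.og1 (h : Cx f k E 𝒟 R S A) {X : Set ℕ} (hX : X ∈ impD 𝒟 R S A) (hXA : X ⊆ A) :
    og 𝒟 R A X ∩ A = X ∧ og 𝒟 R A X ⊆ S := by
  unfold og
  rw [if_pos hXA]
  exact ⟨(h.part1 hX hXA).2.2, (h.part1 hX hXA).2.1⟩

lemma Cx.og2 (h : Cx f k E 𝒟 R S A) {X : Set ℕ} (hX : X ∈ impD 𝒟 R S A) (hXA : ¬ X ⊆ A) :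
    b2 R S A (og 𝒟 R A X) = X := by
  unfold og
  rw [if_neg hXA]
  exact (h.part2 hX hXA).2

lemma Cx.f_og (h : Cx f k E 𝒟 R S A) {X : Set ℕ} (hX : X ∈ impD 𝒟 R S A) :
    f X ≤ f (og 𝒟 R A X) := by
  by_cases hXA : X ⊆ A
  · obtain ⟨h1, h2⟩ := h.og1 hX hXA
    have := h.f_b1 h2
    rwa [h1] at this
  · have h1 := h.og2 hX hXA
    have := (h.b2_mem (h.og_mem hX) (by rw [h1]; exact h.dec'.ne X hX)).2
    rwa [h1] at this

/-- two different children of the same member -/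
lemma Cx.star (h : Cx f k E 𝒟 R S A) {X Y : Set ℕ} (hX : X ∈ impD 𝒟 R S A)
    (hY : Y ∈ impD 𝒟 R S A) (ho : og 𝒟 R A X = og 𝒟 R A Y) (hne : X ≠ Y)
    (hfX : f X = f (og 𝒟 R A X)) : f Y ≤ f A := by
  -- one of the two is in part I, the other in part II
  have key : ∀ D ∈ 𝒟, D ⊆ S → (D ∩ A).Nonempty → (b2 R S A D).Nonempty → ¬ b2 R S A D ⊆ A →
      (f (D ∩ A) < f D ∧ f (b2 R S A D) < f D) ∨ f (D ∩ A) + f (b2 R S A D) ≤ f D + f A := by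
    intro D hD hDS hn1 hn2 hn3
    unfold b2 at hn2 hn3 ⊢
    rw [if_pos hDS] at hn2 hn3 ⊢
    by_cases hR : R ⊆ D
    · rw [if_pos hR] at hn2 hn3 ⊢
      right
      have h1 := h.sub1 hDS
      rw [Set.union_comm D A]
      omega
    · rw [if_neg hR] at hn2 hn3 ⊢
      left
      have hd := h.disj hD hR hn2
      obtain ⟨h1, h2⟩ := h.opt.2.2.2.2.2.2 D hD hDS hd hn1 hn2
      have h3 := h.sub1 hDS
      have h4 := h.sub2 hDS
      omega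
  have hoD := h.og_mem hX
  have hXne := h.dec'.ne X hX
  have hYne := h.dec'.ne Y hY
  by_cases hXA : X ⊆ A
  · obtain ⟨h1, h2⟩ := h.og1 hX hXA
    by_cases hYA : Y ⊆ A
    · have h3 := (h.og1 hY hYA).1
      rw [← ho, h1] at h3
      exact absurd h3 hne
    · have h3 := h.og2 hY hYA
      rw [← ho] at h3
      have := key _ hoD h2 (by rw [h1]; exact hXne) (by rw [h3]; exact hYne) (by rw [h3]; exact hYA)
      rw [h1, h3] at this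
      omega
  · have h1 := h.og2 hX hXA
    by_cases hYA : Y ⊆ A
    · obtain ⟨h3, h4⟩ := h.og1 hY hYA
      rw [← ho] at h3 h4
      have := key _ hoD h4 (by rw [h3]; exact hYne) (by rw [h1]; exact hXne) (by rw [h1]; exact hXA)
      rw [h1, h3] at this
      omega
    · have h3 := h.og2 hY hYA
      rw [← ho, h1] at h3
      exact absurd h3 hne

/-- clean levels -/
def Cln (f : Set ℕ → ℕ) (𝒟 : Set (Set ℕ)) (R S A : Set ℕ) (z : ℕ) : Prop :=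
  ∀ D ∈ 𝒟, f D = z → ∃ X ∈ impD 𝒟 R S A, og 𝒟 R A X = D ∧ f X = z

lemma Cx.inj (h : Cx f k E 𝒟 R S A) {x : ℕ} (hx : f A < x)
    (hc : ∀ z, x < z → Cln f 𝒟 R S A z) {X Y : Set ℕ} (hX : X ∈ impD 𝒟 R S A)
    (hY : Y ∈ impD 𝒟 R S A) (hfX : x ≤ f X) (hfY : x ≤ f Y)
    (ho : og 𝒟 R A X = og 𝒟 R A Y) : X = Y := by
  by_contra hne
  have h1 := h.f_og hX
  have h2 := h.f_og hY
  rcases Nat.lt_or_ge x (f (og 𝒟 R A X)) with hlt | hge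
  · obtain ⟨W, hW, hoW, hfW⟩ := hc _ hlt _ (h.og_mem hX) rfl
    by_cases hWX : W = X
    · subst hWX
      have := h.star hW hY ho hne hfW
      omega
    · have := h.star hW hX hoW hWX (by rw [hfW, hoW])
      omega
  · have := h.star hX hY ho hne (by omega)
    omega

/-- the set of counted pairs -/
def prs (f : Set ℕ → ℕ) (x : ℕ) (𝒟 : Set (Set ℕ)) : Set (Set ℕ × Set ℕ) :=
  {p | p.1 ∈ 𝒟 ∧ p.2 ∈ 𝒟 ∧ p.1 ⊆ p.2 ∧ ∀ T ∈ 𝒟, p.1 ⊆ T → T ⊆ p.2 → x ≤ f T}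

lemma pif_eq (f : Set ℕ → ℕ) (x : ℕ) (𝒟 : Set (Set ℕ)) : pif f x 𝒟 = (prs f x 𝒟).ncard := rfl

lemma prs_fin (hE : E.Finite) (hd : Dec f k E 𝒟) (x : ℕ) : (prs f x 𝒟).Finite := by
  have h1 : (𝒫 E).Finite := hE.finite_subsets
  apply (h1.prod h1).subset
  rintro ⟨P, Q⟩ ⟨h1, h2, _⟩
  exact ⟨hd.sub P h1, hd.sub Q h2⟩

lemma Cx.same (h : Cx f k E 𝒟 R S A) {x : ℕ} (hx : f A < x) {P Q : Set ℕ}
    (hp : (P, Q) ∈ prs f x (impD 𝒟 R S A)) : (P ⊆ A ∧ Q ⊆ A) ∨ (¬ P ⊆ A ∧ ¬ Q ⊆ A) := by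
  obtain ⟨hP, hQ, hPQ, hT⟩ := hp
  simp only at hP hQ hPQ hT
  by_cases hQA : Q ⊆ A
  · exact Or.inl ⟨hPQ.trans hQA, hQA⟩
  · right
    refine ⟨fun hPA => ?_, hQA⟩
    have hAQ : A ⊆ Q := by
      rcases h.dec'.lam Q hQ A h.A_mem with h4 | h4 | h4
      · exact absurd h4 hQA
      · exact h4
      · obtain ⟨y, hy⟩ := h.dec'.ne P hP
        exact absurd (h4.le_bot ⟨hPQ hy, hPA hy⟩) (by simp)
    have := hT A h.A_mem hPA hAQ
    omega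

lemma Cx.map_mem (h : Cx f k E 𝒟 R S A) {x : ℕ} (hx : f A < x) {P Q : Set ℕ}
    (hp : (P, Q) ∈ prs f x (impD 𝒟 R S A)) : (og 𝒟 R A P, og 𝒟 R A Q) ∈ prs f x 𝒟 := by
  have hs := h.same hx hp
  obtain ⟨hP, hQ, hPQ, hT⟩ := hp
  simp only at hP hQ hPQ hT
  have hPne := h.dec'.ne P hP
  refine ⟨h.og_mem hP, h.og_mem hQ, ?_, ?_⟩
  · rcases hs with ⟨h1, h2⟩ | ⟨h1, h2⟩
    · simp only [og, if_pos h1, if_pos h2]
      exact cl_mono _ hPQ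
    · simp only [og, if_neg h1, if_neg h2]
      exact cl_mono _ (Set.union_subset_union (Set.diff_subset_diff_left hPQ)
        (Set.inter_subset_inter_left _ hPQ))
  · intro T hTm h1 h2
    simp only at h1 h2
    rcases hs with ⟨h3, h4⟩ | ⟨h3, h4⟩
    · obtain ⟨hP1, hP2⟩ := h.og1 hP h3
      obtain ⟨hQ1, hQ2⟩ := h.og1 hQ h4
      have hTS : T ⊆ S := h2.trans hQ2
      have hPT : P ⊆ T ∩ A := by
        rw [← hP1]; exact Set.inter_subset_inter_left _ h1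
      have hTQ : T ∩ A ⊆ Q := by
        rw [← hQ1]; exact Set.inter_subset_inter_left _ h2
      have h5 := hT (T ∩ A) (Or.inl (Or.inl (Or.inr ⟨hPne.mono hPT, T, hTm, hTS, rfl⟩))) hPT hTQ
      exact h5.trans (h.f_b1 hTS)
    · have hP1 := h.og2 hP h3
      have hQ1 := h.og2 hQ h4
      have hPT : P ⊆ b2 R S A T := by
        rw [← hP1]; exact h.b2_mono hTm h1
      have hTQ : b2 R S A T ⊆ Q := by
        rw [← hQ1]; exact h.b2_mono (h.og_mem hQ) h2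
      obtain ⟨h5, h6⟩ := h.b2_mem hTm (hPne.mono hPT)
      exact (hT _ h5 hPT hTQ).trans h6

lemma Cx.injOn (h : Cx f k E 𝒟 R S A) {x : ℕ} (hx : f A < x)
    (hc : ∀ z, x < z → Cln f 𝒟 R S A z) :
    Set.InjOn (fun p : Set ℕ × Set ℕ => (og 𝒟 R A p.1, og 𝒟 R A p.2))
      (prs f x (impD 𝒟 R S A)) := by
  rintro ⟨P, Q⟩ hp ⟨P', Q'⟩ hp' he
  simp only [Prod.mk.injEq] at he
  have h1 := hp.2.2.2 P hp.1 le_rfl hp.2.2.1
  have h2 := hp.2.2.2 Q hp.2.1 hp.2.2.1 le_rfl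
  have h3 := hp'.2.2.2 P' hp'.1 le_rfl hp'.2.2.1
  have h4 := hp'.2.2.2 Q' hp'.2.1 hp'.2.2.1 le_rfl
  have e1 := h.inj hx hc hp.1 hp'.1 h1 h3 he.1
  have e2 := h.inj hx hc hp.2.1 hp'.2.1 h2 h4 he.2
  simp only at e1 e2
  rw [e1, e2]

lemma Cx.le (h : Cx f k E 𝒟 R S A) {x : ℕ} (hx : f A < x)
    (hc : ∀ z, x < z → Cln f 𝒟 R S A z) : pif f x (impD 𝒟 R S A) ≤ pif f x 𝒟 := by
  rw [pif_eq, pif_eq]
  exact Set.ncard_le_ncard_of_injOn _ (fun p hp => h.map_mem hx (P := p.1) (Q := p.2) hp)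
    (h.injOn hx hc) (prs_fin h.fin h.dec x)

lemma Cx.lt (h : Cx f k E 𝒟 R S A) {x : ℕ} (hx : f A < x)
    (hc : ∀ z, x < z → Cln f 𝒟 R S A z) (hs : ∃ q ∈ prs f x 𝒟,
      ∀ P Q : Set ℕ, (P, Q) ∈ prs f x (impD 𝒟 R S A) → (og 𝒟 R A P, og 𝒟 R A Q) ≠ q) :
    pif f x (impD 𝒟 R S A) < pif f x 𝒟 := by
  obtain ⟨q, hq, hn⟩ := hs
  rw [pif_eq, pif_eq]
  rw [← Set.ncard_image_of_injOn (h.injOn hx hc)]
  apply Set.ncard_lt_ncard _ (prs_fin h.fin h.dec x)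
  rw [Set.ssubset_iff_of_subset]
  · refine ⟨q, hq, ?_⟩
    rintro ⟨⟨P, Q⟩, hp, he⟩
    exact hn P Q hp he
  · rintro _ ⟨⟨P, Q⟩, hp, rfl⟩
    exact h.map_mem hx hp

lemma Cx.main (h : Cx f k E 𝒟 R S A) :
    ∃ x, (∀ y, x < y → pif f y (impD 𝒟 R S A) ≤ pif f y 𝒟) ∧
      pif f x (impD 𝒟 R S A) < pif f x 𝒟 := by
  by_cases hcl : ∀ z, f A < z → Cln f 𝒟 R S A z
  · refine ⟨f A + 1, fun y hy => h.le (by omega) fun z hz => hcl z (by omega),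
      h.lt (by omega) (fun z hz => hcl z (by omega)) ?_⟩
    refine ⟨(R, S), ⟨h.R_mem, h.S_mem, h.RA.trans h.AS, fun T hT h1 h2 =>
      h.opt.2.2.2.2.2.1 T hT h1 h2⟩, ?_⟩
    intro P Q hp he
    simp only [Prod.mk.injEq] at he
    rcases h.same (Nat.lt_succ_self _) hp with ⟨h1, h2⟩ | ⟨h1, h2⟩
    · have h3 := (h.og1 hp.2.1 h2).1
      simp only at h3
      rw [he.2, Set.inter_eq_self_of_subset_right h.AS] at h3
      have h4 := hp.2.2.2 Q hp.2.1 hp.2.2.1 le_rfl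
      rw [← h3] at h4
      omega
    · have h3 := h.og2 hp.1 h1
      simp only at h3
      rw [he.1, b2, if_pos (h.RA.trans h.AS), if_pos le_rfl] at h3
      exact h1 (h3 ▸ Set.union_subset h.RA le_rfl)
  · push Not at hcl
    -- the largest level that is not clean
    have hbd : ∀ z, f A < z ∧ ¬ Cln f 𝒟 R S A z → z ≤ k := by
      rintro z ⟨_, h2⟩
      unfold Cln at h2
      push Not at h2
      obtain ⟨D, hD, hfD, _⟩ := h2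
      rw [← hfD]
      exact h.dec.le D hD
    obtain ⟨z0, hz0⟩ := hcl
    have hz1 := Nat.findGreatest_spec (P := fun z => f A < z ∧ ¬ Cln f 𝒟 R S A z)
      (hbd z0 hz0) hz0
    set z := Nat.findGreatest (fun z => f A < z ∧ ¬ Cln f 𝒟 R S A z) k with hzdef
    have hmax : ∀ y, z < y → Cln f 𝒟 R S A y := by
      intro y hy
      by_contra hcy
      have h5 : f A < y ∧ ¬ Cln f 𝒟 R S A y := ⟨by omega, hcy⟩
      exact (Nat.findGreatest_is_greatest hy (hbd y h5)) h5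
    refine ⟨z, fun y hy => h.le (by omega) fun w hw => hmax w (by omega),
      h.lt hz1.1 hmax ?_⟩
    have h6 := hz1.2
    unfold Cln at h6
    push Not at h6
    obtain ⟨D, hD, hfD, hno⟩ := h6
    refine ⟨(D, D), ⟨hD, hD, le_rfl, fun T _ h1 h2 => ?_⟩, ?_⟩
    · rw [Set.Subset.antisymm h2 h1, hfD]
    · intro P Q hp he
      simp only [Prod.mk.injEq] at he
      have h7 := hp.2.2.2 P hp.1 le_rfl hp.2.2.1
      have h8 := h.f_og hp.1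
      simp only at h8
      rw [he.1, hfD] at h8
      exact hno P hp.1 he.1 (by omega)

end

theorem imb (h1 : T_IMA) : T_IMB := by
  intro f k E 𝒟 R S A hE hs hd ho
  exact Cx.main ⟨hE, hs, hd, ho, h1 f k E 𝒟 R S A hE hs hd ho⟩

end

end Pool.Agent.H70.GW
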