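import Pool.Agent.H55.GW.Targets3

set_option autoImplicit false

namespace Pool.Agent.H70.GW

open Pool.Agent.H55.GW

theorem mnr : T_MNR := by
  intro M M' ι Z hE hE' hinj hsub hZ hdisj hb
  obtain ⟨B₀, hB₀⟩ := M.exists_isBase
  have hB₀' := (hb B₀ hB₀.subset_ground).mp hB₀
  have hZi : M'.Indep Z := hB₀'.indep.subset Set.subset_union_right
  have hg : ι '' M.E ⊆ (M'.contract Z).E := by
    rw [Matroid.contract_ground]
    exact fun x hx => ⟨hsub hx, fun hxZ => hdisj.le_bot ⟨hx, hxZ⟩⟩
  refine ⟨(M'.contract Z).restrict (ι '' M.E), ?_, ?_, ?_⟩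
  · rw [← Matroid.delete_compl hg]
    exact Matroid.contract_delete_isMinor _ _ _
  · rw [Matroid.restrict_ground_eq]
    exact hinj.bijOn_image
  · intro I hI
    rw [Matroid.restrict_indep_iff, hZi.contract_indep_iff]
    have hIE : ι '' I ⊆ ι '' M.E := Set.image_mono hI
    constructor
    · intro h
      obtain ⟨A, hA, hIA⟩ := h.exists_isBase_superset
      have h1 := (hb A hA.subset_ground).mp hA
      exact ⟨⟨hdisj.mono_left hIE, h1.indep.subset
        (Set.union_subset_union_left _ (Set.image_mono hIA))⟩, hIE⟩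
    · rintro ⟨⟨_, h2⟩, _⟩
      have hXE : ι '' M.E ∪ Z ⊆ M'.E := Set.union_subset hsub hZ
      obtain ⟨J, hJ, hIJ⟩ := h2.subset_isBasis_of_subset
        (Set.union_subset_union_left Z hIE) hXE
      have hsp : M'.Spanning (ι '' M.E ∪ Z) := hB₀'.spanning_of_superset
        (Set.union_subset_union_left Z (Set.image_mono hB₀.subset_ground)) hXE
      have hJB : M'.IsBase J := hJ.isBase_of_spanning hsp
      have hJe : ι '' {a | a ∈ M.E ∧ ι a ∈ J} ∪ Z = J := by
        apply Set.Subset.antisymm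
        · rintro x (⟨a, ha, rfl⟩ | hx)
          · exact ha.2
          · exact hIJ (Or.inr hx)
        · intro x hx
          rcases hJ.subset hx with ⟨a, ha, rfl⟩ | h
          · exact Or.inl ⟨a, ⟨ha, hx⟩, rfl⟩
          · exact Or.inr h
      have hA := (hb {a | a ∈ M.E ∧ ι a ∈ J} (fun a ha => ha.1)).mpr (by rw [hJe]; exact hJB)
      exact hA.indep.subset fun a ha => ⟨hI ha, hIJ (Or.inl ⟨a, ha, rfl⟩)⟩

end Pool.Agent.H70.GW
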